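import Pool.Agent.H.MP_0cad2f_co.helper47.Defs

/-!
The double wedge: moving one constraint of a feasible basis away from the hyperplane spanned by
the other ones keeps the basis feasible.
-/

set_option autoImplicit false

namespace Pool.Agent.H.MP_0cad2f_co.helper40

open Matrix Finset
open Pool.Agent.H.MP_0cad2f_co.helper47

variable {n d : ℕ}

theorem update_ne (a : Fin n → Fin d → ℝ) (B : Idx n d) {k₀ k : Fin d} (hk : k ≠ k₀)
    (x : Fin d → ℝ) : Function.update a (B k₀) x (B k) = a (B k) :=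
  Function.update_of_ne (fun h => hk (B.injective h)) _ _

/-- The core of the wedge lemma: the direction `u` of the line and its translate point `xm` are
given, the feasible part of the line being `|τ| ≤ Δ`. -/
theorem wedge_core (a : Fin n → Fin d → ℝ) (B : Idx n d) (k₀ : Fin d) {ρ Δ : ℝ}
    {xm u v h : Fin d → ℝ}
    (hau : ∀ k, k ≠ k₀ → a (B k) ⬝ᵥ u = 0) (hxm : ∀ k, k ≠ k₀ → a (B k) ⬝ᵥ xm = 1)
    (hline : ∀ y : Fin d → ℝ, (∀ k, k ≠ k₀ → a (B k) ⬝ᵥ y = 0) → ∃ τ : ℝ, y = τ • u)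
    (hS : ∀ τ : ℝ, ((∀ i, i ≠ B k₀ → a i ⬝ᵥ (xm + τ • u) ≤ 1) ∧ n2 (xm + τ • u) ≤ ρ) ↔ |τ| ≤ Δ)
    (hv : v ⬝ᵥ xm = 0) (huv : u ⬝ᵥ v = 1) (hh : h ⬝ᵥ v ≤ 0) (x : Fin d → ℝ)
    (hG : Good (Function.update a (B k₀) x) B)
    (hn : n2 (vtx (Function.update a (B k₀) x) B) ≤ ρ) (hx : h ⬝ᵥ x ≤ 1) :
    u ⬝ᵥ x ≠ 0 ∧ nu (Function.update a (B k₀) x) B k₀ = (u ⬝ᵥ x)⁻¹ • u ∧
        ∀ t : ℝ, 0 ≤ t → 2 * |u ⬝ᵥ x| ≤ t →
          Good (Function.update a (B k₀) (x + t • v)) B ∧
          n2 (vtx (Function.update a (B k₀) (x + t • v)) B) ≤ ρ ∧ h ⬝ᵥ (x + t • v) ≤ 1 := by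
  classical
  obtain ⟨hdet, hfeas⟩ := hG
  -- the dual vector
  have hnu0 : ∀ k, k ≠ k₀ → a (B k) ⬝ᵥ nu (Function.update a (B k₀) x) B k₀ = 0 := by
    intro k hk
    have := dot_nu_ne hdet hk
    rwa [update_ne a B hk] at this
  have hxnu : x ⬝ᵥ nu (Function.update a (B k₀) x) B k₀ = 1 := by
    have := dot_nu_self hdet k₀
    rwa [Function.update_self] at this
  obtain ⟨c, hc⟩ := hline _ hnu0
  have hcs : c * (u ⬝ᵥ x) = 1 := by
    rw [hc, dotProduct_smul, smul_eq_mul, dotProduct_comm] at hxnu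
    exact hxnu
  have hs : u ⬝ᵥ x ≠ 0 := right_ne_zero_of_mul_eq_one hcs
  have hcinv : c = (u ⬝ᵥ x)⁻¹ := eq_inv_of_mul_eq_one_left hcs
  refine ⟨hs, by rw [hc, hcinv], ?_⟩
  -- the vertex
  have hvt : ∀ k, k ≠ k₀ → a (B k) ⬝ᵥ vtx (Function.update a (B k₀) x) B = 1 := by
    intro k hk
    have := dot_vtx hdet k
    rwa [update_ne a B hk] at this
  have hxv : x ⬝ᵥ vtx (Function.update a (B k₀) x) B = 1 := by
    have := dot_vtx hdet k₀
    rwa [Function.update_self] at this
  obtain ⟨τ, hτ⟩ := hline (vtx (Function.update a (B k₀) x) B - xm) (by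
    intro k hk
    rw [dotProduct_sub, hvt k hk, hxm k hk, sub_self])
  have hvtx : vtx (Function.update a (B k₀) x) B = xm + τ • u := by
    rw [← hτ]; abel
  have hτΔ : |τ| ≤ Δ := by
    rw [← hS]
    refine ⟨fun i hi => ?_, by rw [← hvtx]; exact hn⟩
    have := hfeas i
    rw [Function.update_of_ne hi, hvtx] at this
    exact this
  have hxm1 : x ⬝ᵥ xm + τ * (u ⬝ᵥ x) = 1 := by
    rw [hvtx, dotProduct_add, dotProduct_smul, smul_eq_mul, dotProduct_comm x u] at hxv
    exact hxv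
  intro t ht0 ht
  set s : ℝ := u ⬝ᵥ x with hsdef
  have hspos : 0 < |s| := abs_pos.mpr hs
  have hst : |s| ≤ s + t := by
    have := neg_abs_le s
    linarith
  have hstpos : 0 < s + t := lt_of_lt_of_le hspos hst
  set τ' : ℝ := τ * s / (s + t) with hτ'
  have hτ'Δ : |τ'| ≤ Δ := by
    rw [hτ', abs_div, abs_mul, abs_of_pos hstpos, div_le_iff₀ hstpos]
    exact mul_le_mul hτΔ hst (abs_nonneg _) ((abs_nonneg _).trans hτΔ)
  have hux' : (x + t • v) ⬝ᵥ u = s + t := by
    rw [add_dotProduct, smul_dotProduct, dotProduct_comm v u, huv, smul_eq_mul, mul_one,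
      dotProduct_comm x u]
  have hx'm : (x + t • v) ⬝ᵥ xm = x ⬝ᵥ xm := by
    rw [add_dotProduct, smul_dotProduct, hv, smul_zero, add_zero]
  -- the new basis
  have hdet' : (mat (Function.update a (B k₀) (x + t • v)) B).det ≠ 0 := by
    apply det_ne_zero_of_dual (fun l =>
      if l = k₀ then (s + t)⁻¹ • u else nu (Function.update a (B k₀) x) B l -
        (((x + t • v) ⬝ᵥ nu (Function.update a (B k₀) x) B l) * (s + t)⁻¹) • u)
    intro k l
    by_cases hk : k = k₀
    · subst hk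
      rw [Function.update_self]
      by_cases hl : l = k
      · subst hl
        simp only [if_true]
        rw [dotProduct_smul, hux', smul_eq_mul, inv_mul_cancel₀ hstpos.ne']
      · rw [if_neg hl, if_neg (fun h => hl h.symm), dotProduct_sub, dotProduct_smul, hux',
          smul_eq_mul, mul_assoc, inv_mul_cancel₀ hstpos.ne', mul_one, sub_self]
    · rw [update_ne a B hk]
      by_cases hl : l = k₀
      · subst hl
        rw [if_pos rfl, if_neg hk, dotProduct_smul, hau k hk, smul_zero]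
      · rw [if_neg hl, dotProduct_sub, dotProduct_smul, hau k hk, smul_zero, sub_zero]
        have := dot_nu hdet k l
        rwa [update_ne a B hk] at this
  have hvtx' : xm + τ' • u = vtx (Function.update a (B k₀) (x + t • v)) B := by
    apply eq_vtx hdet'
    intro k
    by_cases hk : k = k₀
    · subst hk
      rw [Function.update_self, dotProduct_add, dotProduct_smul, hux', hx'm, smul_eq_mul, hτ',
        div_mul_cancel₀ _ hstpos.ne']
      exact hxm1
    · rw [update_ne a B hk, dotProduct_add, dotProduct_smul, hau k hk, hxm k hk, smul_zero,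
        add_zero]
  have hmem := (hS τ').mpr hτ'Δ
  refine ⟨⟨hdet', ?_⟩, ?_, ?_⟩
  · intro i
    by_cases hi : i = B k₀
    · rw [hi, dot_vtx hdet' k₀]
    · rw [Function.update_of_ne hi, ← hvtx']
      exact hmem.1 i hi
  · rw [← hvtx']
    exact hmem.2
  · rw [dotProduct_add, dotProduct_smul, smul_eq_mul]
    have := mul_nonneg ht0 (neg_nonneg.mpr hh)
    linarith [hx]

/-- A nonempty compact convex subset of the line is a centred interval. -/
theorem exists_centre {S : Set ℝ} (h0 : S.Nonempty) (hc : IsCompact S) (hconv : Convex ℝ S) :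
    ∃ m Δ : ℝ, 0 ≤ Δ ∧ ∀ τ : ℝ, τ ∈ S ↔ |τ - m| ≤ Δ := by
  have h1 : sInf S ∈ S := hc.sInf_mem h0
  have h2 : sSup S ∈ S := hc.sSup_mem h0
  have hS : S = Set.Icc (sInf S) (sSup S) := by
    apply Set.Subset.antisymm
    · intro x hx
      exact ⟨csInf_le hc.bddBelow hx, le_csSup hc.bddAbove hx⟩
    · exact hconv.ordConnected.out h1 h2
  refine ⟨(sInf S + sSup S) / 2, (sSup S - sInf S) / 2, ?_, ?_⟩
  · have := csInf_le hc.bddBelow h2
    linarith
  · intro τ
    constructor
    · intro hτ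
      have h3 := csInf_le hc.bddBelow hτ
      have h4 := le_csSup hc.bddAbove hτ
      rw [abs_le]
      constructor <;> linarith
    · intro hτ
      rw [abs_le] at hτ
      rw [hS]
      constructor <;> linarith [hτ.1, hτ.2]

/-- The double wedge. -/
theorem wedge (a : Fin n → Fin d → ℝ) (B : Idx n d) (k₀ : Fin d) (hd : 2 ≤ d) {ρ A : ℝ}
    (hρ : 0 ≤ ρ) (hA : 0 ≤ A) (ha : ∀ i, i ≠ B k₀ → n2 (a i) ≤ A) (h : Fin d → ℝ) :
    ∃ u v : Fin d → ℝ, n2 u = 1 ∧ n2 v ≤ 1 + A * ρ ∧ u ⬝ᵥ v = 1 ∧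
      ∀ x : Fin d → ℝ, Good (Function.update a (B k₀) x) B →
        n2 (vtx (Function.update a (B k₀) x) B) ≤ ρ → h ⬝ᵥ x ≤ 1 →
        u ⬝ᵥ x ≠ 0 ∧ nu (Function.update a (B k₀) x) B k₀ = (u ⬝ᵥ x)⁻¹ • u ∧
        ∀ t : ℝ, 0 ≤ t → 2 * |u ⬝ᵥ x| ≤ t →
          Good (Function.update a (B k₀) (x + t • v)) B ∧
          n2 (vtx (Function.update a (B k₀) (x + t • v)) B) ≤ ρ ∧ h ⬝ᵥ (x + t • v) ≤ 1 := by
  classical
  obtain ⟨k₁, hk₁⟩ : ∃ k₁ : Fin d, k₁ ≠ k₀ := by
    have : Nontrivial (Fin d) := Fin.nontrivial_iff_two_le.mpr hd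
    exact exists_ne k₀
  by_cases hex : ∃ x0, Good (Function.update a (B k₀) x0) B ∧
      n2 (vtx (Function.update a (B k₀) x0) B) ≤ ρ
  · obtain ⟨x0, hG0, hn0⟩ := hex
    have hdet := hG0.1
    set w := nu (Function.update a (B k₀) x0) B k₀ with hw
    set y0 := vtx (Function.update a (B k₀) x0) B with hy0
    have hxw : x0 ⬝ᵥ w = 1 := by
      have := dot_nu_self hdet k₀
      rwa [Function.update_self] at this
    have haw : ∀ k, k ≠ k₀ → a (B k) ⬝ᵥ w = 0 := by
      intro k hk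
      have := dot_nu_ne hdet hk
      rwa [update_ne a B hk] at this
    have hay : ∀ k, k ≠ k₀ → a (B k) ⬝ᵥ y0 = 1 := by
      intro k hk
      have := dot_vtx hdet k
      rwa [update_ne a B hk] at this
    have hw0 : 0 < n2 w := by
      rcases (n2_nonneg w).lt_or_eq with h1 | h1
      · exact h1
      · have h2 := dot_le x0 w
        rw [hxw, ← h1, mul_zero] at h2
        linarith
    set u : Fin d → ℝ := (n2 w)⁻¹ • w with hu
    have hu1 : n2 u = 1 := by
      rw [hu, n2_smul, abs_of_pos (inv_pos.mpr hw0), inv_mul_cancel₀ hw0.ne']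
    have hau : ∀ k, k ≠ k₀ → a (B k) ⬝ᵥ u = 0 := by
      intro k hk
      rw [hu, dotProduct_smul, haw k hk, smul_zero]
    have huu : u ⬝ᵥ u = 1 := by
      rw [← n2_sq, hu1, one_pow]
    have hline : ∀ y : Fin d → ℝ, (∀ k, k ≠ k₀ → a (B k) ⬝ᵥ y = 0) → ∃ τ : ℝ, y = τ • u := by
      intro y hy
      refine ⟨(x0 ⬝ᵥ y) * n2 w, ?_⟩
      have h1 := sum_smul_nu hdet y
      rw [Finset.sum_eq_single k₀] at h1
      · rw [Function.update_self] at h1
        rw [hu, smul_smul, mul_assoc, mul_inv_cancel₀ hw0.ne', mul_one]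
        exact h1.symm
      · intro k _ hk
        rw [update_ne a B hk, hy k hk, zero_smul]
      · intro h; exact absurd (Finset.mem_univ _) h
    -- the feasible part of the line
    set S : Set ℝ := {τ : ℝ | (∀ i, i ≠ B k₀ → a i ⬝ᵥ (y0 + τ • u) ≤ 1) ∧
      n2 (y0 + τ • u) ≤ ρ} with hS
    have hS0 : (0 : ℝ) ∈ S := by
      refine ⟨fun i hi => ?_, ?_⟩
      · have := hG0.2 i
        rw [Function.update_of_ne hi] at this
        rw [zero_smul, add_zero]
        exact this
      · rw [zero_smul, add_zero]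
        exact hn0
    have hn2cont : Continuous (n2 : (Fin d → ℝ) → ℝ) := by
      unfold n2
      apply Real.continuous_sqrt.comp
      unfold dotProduct
      fun_prop
    have hcont : Continuous fun τ : ℝ => y0 + τ • u := by fun_prop
    have hSclosed : IsClosed S := by
      rw [hS, Set.ofPred_and]
      apply IsClosed.inter
      · rw [Set.ofPred_forall]
        refine isClosed_iInter fun i => ?_
        rw [Set.ofPred_forall]
        refine isClosed_iInter fun _ => ?_
        refine isClosed_le ?_ continuous_const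
        unfold dotProduct
        fun_prop
      · exact isClosed_le (hn2cont.comp hcont) continuous_const
    have hSbdd : ∀ τ ∈ S, |τ| ≤ 2 * ρ := by
      intro τ hτ
      have h1 : n2 (τ • u) ≤ n2 (y0 + τ • u) + n2 y0 := by
        have h2 := n2_sub_le (y0 + τ • u) y0
        rwa [add_sub_cancel_left] at h2
      rw [n2_smul, hu1, mul_one] at h1
      linarith [hτ.2]
    have hScomp : IsCompact S := by
      apply Metric.isCompact_of_isClosed_isBounded hSclosed
      rw [isBounded_iff_forall_norm_le]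
      exact ⟨2 * ρ, fun τ hτ => by rw [Real.norm_eq_abs]; exact hSbdd τ hτ⟩
    have hSconv : Convex ℝ S := by
      intro p hp q hq α β hα hβ hαβ
      have hpq : y0 + (α • p + β • q) • u = α • (y0 + p • u) + β • (y0 + q • u) := by
        have : y0 = (α + β) • y0 := by rw [hαβ, one_smul]
        conv_lhs => rw [this]
        simp only [smul_eq_mul, smul_add, smul_smul, add_smul]
        abel
      refine ⟨fun i hi => ?_, ?_⟩
      · rw [hpq, dotProduct_add, dotProduct_smul, dotProduct_smul, smul_eq_mul, smul_eq_mul]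
        calc α * (a i ⬝ᵥ (y0 + p • u)) + β * (a i ⬝ᵥ (y0 + q • u)) ≤ α * 1 + β * 1 :=
              add_le_add (mul_le_mul_of_nonneg_left (hp.1 i hi) hα)
                (mul_le_mul_of_nonneg_left (hq.1 i hi) hβ)
          _ = 1 := by rw [mul_one, mul_one, hαβ]
      · rw [hpq]
        calc n2 (α • (y0 + p • u) + β • (y0 + q • u))
            ≤ n2 (α • (y0 + p • u)) + n2 (β • (y0 + q • u)) := n2_add_le _ _
          _ = α * n2 (y0 + p • u) + β * n2 (y0 + q • u) := by
              rw [n2_smul, n2_smul, abs_of_nonneg hα, abs_of_nonneg hβ]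
          _ ≤ α * ρ + β * ρ := add_le_add (mul_le_mul_of_nonneg_left hp.2 hα)
                (mul_le_mul_of_nonneg_left hq.2 hβ)
          _ = ρ := by rw [← add_mul, hαβ, one_mul]
    obtain ⟨m, Δ, hΔ, hm⟩ := exists_centre ⟨0, hS0⟩ hScomp hSconv
    set xm : Fin d → ℝ := y0 + m • u with hxm
    have hmS : m ∈ S := by rw [hm, sub_self, abs_zero]; exact hΔ
    have hxmn : n2 xm ≤ ρ := hmS.2
    have haxm : ∀ k, k ≠ k₀ → a (B k) ⬝ᵥ xm = 1 := by
      intro k hk
      rw [hxm, dotProduct_add, dotProduct_smul, hau k hk, hay k hk, smul_zero, add_zero]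
    have hSm : ∀ τ : ℝ, ((∀ i, i ≠ B k₀ → a i ⬝ᵥ (xm + τ • u) ≤ 1) ∧ n2 (xm + τ • u) ≤ ρ) ↔
        |τ| ≤ Δ := by
      intro τ
      have h1 := hm (m + τ)
      rw [add_sub_cancel_left] at h1
      rw [← h1]
      have h2 : xm + τ • u = y0 + (m + τ) • u := by
        rw [hxm, add_smul, add_assoc]
      rw [h2]
      rfl
    set v0 : Fin d → ℝ := u - (u ⬝ᵥ xm) • a (B k₁) with hv0
    have hv0m : v0 ⬝ᵥ xm = 0 := by
      rw [hv0, sub_dotProduct, smul_dotProduct (u ⬝ᵥ xm), haxm k₁ hk₁, smul_eq_mul, mul_one,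
        sub_self]
    have huv0 : u ⬝ᵥ v0 = 1 := by
      rw [hv0, dotProduct_sub, dotProduct_smul (u ⬝ᵥ xm), dotProduct_comm u (a (B k₁)),
        hau k₁ hk₁, smul_zero, sub_zero, huu]
    have hnv0 : n2 v0 ≤ 1 + A * ρ := by
      have h1 : |u ⬝ᵥ xm| ≤ ρ := by
        calc |u ⬝ᵥ xm| ≤ n2 u * n2 xm := abs_dot_le _ _
          _ ≤ ρ := by rw [hu1, one_mul]; exact hxmn
      have h2 : n2 (a (B k₁)) ≤ A := ha _ (fun h => hk₁ (B.injective h))
      calc n2 v0 ≤ n2 u + n2 ((u ⬝ᵥ xm) • a (B k₁)) := n2_sub_le _ _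
        _ = 1 + |u ⬝ᵥ xm| * n2 (a (B k₁)) := by rw [hu1, n2_smul]
        _ ≤ 1 + ρ * A := by
            have := mul_le_mul h1 h2 (n2_nonneg _) hρ
            linarith
        _ = 1 + A * ρ := by ring
    rcases le_total (h ⬝ᵥ v0) 0 with hh | hh
    · exact ⟨u, v0, hu1, hnv0, huv0, fun x hG hn hx =>
        wedge_core a B k₀ hau haxm hline hSm hv0m huv0 hh x hG hn hx⟩
    · refine ⟨-u, -v0, by rw [n2_neg, hu1], by rw [n2_neg]; exact hnv0,
        by rw [neg_dotProduct_neg, huv0], fun x hG hn hx =>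
        wedge_core a B k₀ (xm := xm) (Δ := Δ) ?_ haxm ?_ ?_ ?_ ?_ ?_ x hG hn hx⟩
      · intro k hk
        rw [dotProduct_neg, hau k hk, neg_zero]
      · intro y hy
        obtain ⟨τ, hτ⟩ := hline y hy
        exact ⟨-τ, by rw [hτ, neg_smul, smul_neg, neg_neg]⟩
      · intro τ
        have h1 := hSm (-τ)
        rw [abs_neg, neg_smul] at h1
        rw [smul_neg]
        exact h1
      · rw [neg_dotProduct, hv0m, neg_zero]
      · rw [neg_dotProduct_neg, huv0]
      · rw [dotProduct_neg]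
        linarith
  · refine ⟨Pi.single k₀ 1, Pi.single k₀ 1, ?_, ?_, ?_, ?_⟩
    · rw [n2, single_dotProduct, Pi.single_eq_same, mul_one, Real.sqrt_one]
    · rw [n2, single_dotProduct, Pi.single_eq_same, mul_one, Real.sqrt_one]
      have := mul_nonneg hA hρ
      linarith
    · rw [single_dotProduct, Pi.single_eq_same, mul_one]
    · intro x hG hn _
      exact absurd ⟨x, hG, hn⟩ hex

end Pool.Agent.H.MP_0cad2f_co.helper40
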